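import Pool.Agent.N963.GN.StmM

set_option autoImplicit false

/-!
# The kernel of the completed L-function of a cusp form is a `Kern` (task M1 of helper963)
-/

namespace Pool.Agent.N498.GN

open Complex Filter Topology MeasureTheory
open Pool.Agent.N963.GN
open scoped ComplexConjugate

variable {N k : ℕ} {F : ℂ → ℂ} {b : ℕ → ℂ} {κ : ℂ}

lemma summ_aux (k : ℕ) {η : ℝ} (hη : 0 < η) :
    Summable (fun n : ℕ => ((n + 1 : ℕ) : ℝ) ^ k * Real.exp (-(2 * Real.pi * n * η))) := by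
  obtain ⟨r, hr⟩ : ∃ r : ℝ, r = Real.exp (-(2 * Real.pi * η)) := ⟨_, rfl⟩
  have hr0 : 0 < r := by rw [hr]; exact Real.exp_pos _
  have hr1 : ‖r‖ < 1 := by
    rw [Real.norm_of_nonneg hr0.le, hr, Real.exp_lt_one_iff]
    have := Real.pi_pos
    have : 0 < 2 * Real.pi * η := by positivity
    linarith
  have h1 := summable_pow_mul_geometric_of_norm_lt_one k hr1
  have h2 := ((summable_nat_add_iff 1).2 h1).mul_left r⁻¹
  refine h2.congr fun n => ?_
  have h3 : r ^ n = Real.exp (-(2 * Real.pi * n * η)) := by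
    rw [hr, ← Real.exp_nat_mul]
    congr 1
    ring
  rw [← h3, pow_succ]
  field_simp

lemma norm_q (n : ℕ) (τ : ℂ) : ‖cexp (2 * Real.pi * I * ((n + 1 : ℕ) : ℂ) * τ)‖ =
    Real.exp (-(2 * Real.pi * n * τ.im)) * Real.exp (-(2 * Real.pi * τ.im)) := by
  rw [Complex.norm_exp, ← Real.exp_add]
  congr 1
  have h : (2 * Real.pi * I * ((n + 1 : ℕ) : ℂ) * τ) =
      ((2 * Real.pi * ((n + 1 : ℕ) : ℝ) : ℝ) : ℂ) * (I * τ) := by
    push_cast; ring
  rw [h, Complex.re_ofReal_mul]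
  simp only [Complex.mul_re, Complex.I_re, Complex.I_im]
  push_cast
  ring

lemma term_le (h : MF N k F b κ) : ∃ B : ℝ, 0 ≤ B ∧ ∀ {η : ℝ}, 0 < η → ∀ τ : ℂ, η ≤ τ.im → ∀ n : ℕ,
    ‖b (n + 1) * cexp (2 * Real.pi * I * ((n + 1 : ℕ) : ℂ) * τ)‖ ≤
      B * (((n + 1 : ℕ) : ℝ) ^ k * Real.exp (-(2 * Real.pi * n * η))) *
        Real.exp (-(2 * Real.pi * τ.im)) := by
  obtain ⟨B, hB, hb⟩ := h.bb
  refine ⟨B, hB, fun {η} hη τ hτ n => ?_⟩
  rw [norm_mul, norm_q]
  have h1 := hb (n + 1) (by omega)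
  have h2 : Real.exp (-(2 * Real.pi * n * τ.im)) ≤ Real.exp (-(2 * Real.pi * n * η)) := by
    apply Real.exp_le_exp.2
    have := Real.pi_pos
    have h3 : 2 * Real.pi * n * η ≤ 2 * Real.pi * n * τ.im :=
      mul_le_mul_of_nonneg_left hτ (by positivity)
    linarith
  calc ‖b (n + 1)‖ * (Real.exp (-(2 * Real.pi * n * τ.im)) * Real.exp (-(2 * Real.pi * τ.im))) ≤
      (B * ((n + 1 : ℕ) : ℝ) ^ k) *
        (Real.exp (-(2 * Real.pi * n * η)) * Real.exp (-(2 * Real.pi * τ.im))) := by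
        apply mul_le_mul h1 _ (by positivity) (by positivity)
        exact mul_le_mul_of_nonneg_right h2 (Real.exp_pos _).le
    _ = _ := by ring

lemma F_dec (h : MF N k F b κ) {η : ℝ} (hη : 0 < η) : ∃ D : ℝ, 0 ≤ D ∧ ∀ τ : ℂ, η ≤ τ.im →
    ‖F τ‖ ≤ D * Real.exp (-(2 * Real.pi * τ.im)) := by
  obtain ⟨B, hB, hb⟩ := term_le h
  have hs := (summ_aux k hη).mul_left B
  refine ⟨∑' n : ℕ, B * (((n + 1 : ℕ) : ℝ) ^ k * Real.exp (-(2 * Real.pi * n * η))),
    tsum_nonneg fun n => by positivity, fun τ hτ => ?_⟩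
  have h1 := h.sum τ (by linarith)
  rw [← h1.tsum_eq, ← tsum_mul_right]
  exact tsum_of_norm_bounded (hs.mul_right _).hasSum (fun n => hb hη τ hτ n)

lemma F_diff (h : MF N k F b κ) {τ : ℂ} (hτ : 0 < τ.im) : DifferentiableAt ℂ F τ := by
  obtain ⟨B, hB, hb⟩ := term_le h
  obtain ⟨η, hη⟩ : ∃ η : ℝ, η = τ.im / 2 := ⟨_, rfl⟩
  have hη0 : 0 < η := by rw [hη]; positivity
  have hs := (summ_aux k hη0).mul_left B
  have hU : IsOpen {z : ℂ | η < z.im} := isOpen_lt continuous_const Complex.continuous_im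
  have h1 : DifferentiableOn ℂ (fun w => ∑' n : ℕ,
      b (n + 1) * cexp (2 * Real.pi * I * ((n + 1 : ℕ) : ℂ) * w)) {z : ℂ | η < z.im} := by
    refine Complex.differentiableOn_tsum_of_summable_norm hs (fun n => ?_) hU fun n w hw => ?_
    · fun_prop
    · refine (hb hη0 w (le_of_lt hw) n).trans ?_
      have h2 : Real.exp (-(2 * Real.pi * w.im)) ≤ 1 := by
        rw [Real.exp_le_one_iff]
        have := Real.pi_pos
        have h3 : η < w.im := hw
        have h4 : 0 < w.im := by linarith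
        have : 0 < 2 * Real.pi * w.im := by positivity
        linarith
      exact mul_le_of_le_one_right (by positivity) h2
  have h2 : τ ∈ {z : ℂ | η < z.im} := by
    show η < τ.im
    linarith
  have h3 := h1.differentiableAt (hU.mem_nhds h2)
  refine h3.congr_of_eventuallyEq ?_
  filter_upwards [hU.mem_nhds h2] with w hw
  have h4 : η < w.im := hw
  exact ((h.sum w (by linarith)).tsum_eq).symm

lemma tau_im (N : ℕ) (w : ℂ) : (I * cexp w / (Real.sqrt N : ℝ)).im =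
    Real.exp w.re * Real.cos w.im / Real.sqrt N := by
  rw [Complex.div_ofReal_im]
  congr 1
  rw [Complex.mul_im, Complex.I_re, Complex.I_im, Complex.exp_re]
  ring

lemma sqrt_pos' (h : MF N k F b κ) : 0 < Real.sqrt N := Real.sqrt_pos.2 (by exact_mod_cast h.hN)

lemma Km_diff (h : MF N k F b κ) {w : ℂ} (hw : |w.im| < Real.pi / 2) :
    DifferentiableAt ℂ (Km N k F κ) w := by
  have hc : 0 < Real.cos w.im := Real.cos_pos_of_mem_Ioo (abs_lt.1 hw)
  have h0 := sqrt_pos' h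
  have h1 : 0 < (I * cexp w / (Real.sqrt N : ℝ)).im := by
    rw [tau_im]; positivity
  have h2 := F_diff h h1
  have h3 : DifferentiableAt ℂ (fun w : ℂ => I * cexp w / (Real.sqrt N : ℝ)) w := by fun_prop
  have h4 : DifferentiableAt ℂ (fun w : ℂ => F (I * cexp w / (Real.sqrt N : ℝ))) w := h2.comp w h3
  have h5 : DifferentiableAt ℂ (fun w : ℂ => cexp (k * w / 2)) w := by fun_prop
  exact (h4.const_mul κ).mul h5

/-- the symmetry in the strip -/
lemma Km_strip (h : MF N k F b κ) (w : ℂ) (hw : |w.im| < Real.pi / 2) :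
    Km N k F κ (-conj w) = conj (Km N k F κ w) := by
  set K := Km N k F κ with hKdef
  set α : ℝ := Real.pi / 2 with hα
  have hα0 : 0 < α := by have := Real.pi_pos; positivity
  set U : Set ℂ := {w | |w.im| < α} with hU
  have hUo : IsOpen U := isOpen_lt (by fun_prop) continuous_const
  have hUc : Convex ℝ U := by
    have : U = Complex.imLm ⁻¹' Metric.ball 0 α := by
      ext w; simp [hU]
    rw [this]
    exact (convex_ball _ _).linear_preimage _
  have h1 : DifferentiableOn ℂ (conj ∘ (fun w => K (-w)) ∘ conj) U := by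
    intro z hz
    have h2 : DifferentiableAt ℂ (fun w => K (-w)) (conj z) := by
      have h3 : DifferentiableAt ℂ K (-(conj z)) := Km_diff h (by
        have hz' : |z.im| < α := hz
        simpa using hz')
      exact h3.comp (conj z) (differentiable_neg _)
    have h4 := h2.conj_conj
    rw [Complex.conj_conj] at h4
    exact h4.differentiableWithinAt
  have h2 : DifferentiableOn ℂ K U := fun z hz => (Km_diff h hz).differentiableWithinAt
  have h3 : Set.EqOn (conj ∘ (fun w => K (-w)) ∘ conj) K U := by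
    refine (h1.analyticOnNhd hUo).eqOn_of_preconnected_of_frequently_eq
      (h2.analyticOnNhd hUo) hUc.isPreconnected (z₀ := 0) (by simp [hU, hα0]) ?_
    have h5 : Tendsto (fun u : ℝ => (u : ℂ)) (𝓝[≠] (0 : ℝ)) (𝓝[≠] (0 : ℂ)) := by
      refine tendsto_nhdsWithin_iff.2 ⟨?_, ?_⟩
      · have : Tendsto (fun u : ℝ => (u : ℂ)) (𝓝 0) (𝓝 ((0 : ℝ) : ℂ)) :=
          Complex.continuous_ofReal.tendsto 0
        rw [Complex.ofReal_zero] at this
        exact this.mono_left nhdsWithin_le_nhds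
      · filter_upwards [self_mem_nhdsWithin] with u hu
        simpa using hu
    refine h5.frequently ?_
    refine (Eventually.of_forall fun u => ?_).frequently
    have h6 := h.herm u
    simp only [Function.comp_apply, Complex.conj_ofReal]
    rw [← Complex.ofReal_neg, hKdef, h6, Complex.conj_conj]
  have h4 := h3 hw
  simp only [Function.comp_apply] at h4
  rw [← h4, Complex.conj_conj]

/-- the bound for `0 ≤ Re w` -/
lemma Km_bound0 (h : MF N k F b κ) {Y : ℝ} (hY0 : 0 ≤ Y) (hY : Y < Real.pi / 2) :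
    ∃ A c : ℝ, 0 ≤ A ∧ 0 < c ∧ ∀ w : ℂ, |w.im| ≤ Y → 0 ≤ w.re → ‖Km N k F κ w‖ ≤
      A * Real.exp (k / 2 * w.re - c * Real.exp w.re) := by
  have h0 := sqrt_pos' h
  have hcY : 0 < Real.cos Y :=
    Real.cos_pos_of_mem_Ioo ⟨by linarith [Real.pi_pos], hY⟩
  obtain ⟨η, hη⟩ : ∃ η : ℝ, η = Real.cos Y / Real.sqrt N := ⟨_, rfl⟩
  have hη0 : 0 < η := by rw [hη]; positivity
  obtain ⟨D, hD, hF⟩ := F_dec h hη0
  have hpi := Real.pi_pos
  refine ⟨‖κ‖ * D, 2 * Real.pi * η, by positivity, by positivity, fun w hw hre => ?_⟩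
  have hcos : Real.cos Y ≤ Real.cos w.im := by
    rw [← Real.cos_abs w.im]
    exact Real.cos_le_cos_of_nonneg_of_le_pi (abs_nonneg _) (by linarith) hw
  have hIm : η * Real.exp w.re ≤ (I * cexp w / (Real.sqrt N : ℝ)).im := by
    rw [tau_im, hη, div_mul_eq_mul_div]
    apply div_le_div_of_nonneg_right _ h0.le
    rw [mul_comm]
    exact mul_le_mul_of_nonneg_left hcos (Real.exp_pos _).le
  have he1 : 1 ≤ Real.exp w.re := Real.one_le_exp hre
  have hIm1 : η ≤ (I * cexp w / (Real.sqrt N : ℝ)).im := by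
    have : η * 1 ≤ η * Real.exp w.re := mul_le_mul_of_nonneg_left he1 hη0.le
    linarith
  have h1 := hF _ hIm1
  have h2 : Real.exp (-(2 * Real.pi * (I * cexp w / (Real.sqrt N : ℝ)).im)) ≤
      Real.exp (-(2 * Real.pi * η * Real.exp w.re)) := by
    apply Real.exp_le_exp.2
    have := mul_le_mul_of_nonneg_left hIm (show (0 : ℝ) ≤ 2 * Real.pi by positivity)
    linarith
  have h3 : ‖cexp (k * w / 2)‖ = Real.exp (k / 2 * w.re) := by
    rw [Complex.norm_exp]
    congr 1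
    have : (k * w / 2 : ℂ) = ((k / 2 : ℝ) : ℂ) * w := by push_cast; ring
    rw [this, Complex.re_ofReal_mul]
  unfold Km
  rw [norm_mul, norm_mul, h3]
  calc ‖κ‖ * ‖F (I * cexp w / (Real.sqrt N : ℝ))‖ * Real.exp (k / 2 * w.re) ≤
      ‖κ‖ * (D * Real.exp (-(2 * Real.pi * η * Real.exp w.re))) * Real.exp (k / 2 * w.re) := by
        apply mul_le_mul_of_nonneg_right _ (Real.exp_pos _).le
        apply mul_le_mul_of_nonneg_left _ (norm_nonneg _)
        exact h1.trans (mul_le_mul_of_nonneg_left h2 hD)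
    _ = ‖κ‖ * D * (Real.exp (k / 2 * w.re) * Real.exp (-(2 * Real.pi * η * Real.exp w.re))) := by
        ring
    _ = _ := by
        rw [← Real.exp_add]
        rfl

/-- the bound in the strip -/
lemma Km_bound (h : MF N k F b κ) {Y : ℝ} (hY0 : 0 ≤ Y) (hY : Y < Real.pi / 2) :
    ∃ A c : ℝ, 0 ≤ A ∧ 0 < c ∧ ∀ w : ℂ, |w.im| ≤ Y → ‖Km N k F κ w‖ ≤
      A * Real.exp (k / 2 * |w.re| - c * Real.exp |w.re|) := by
  obtain ⟨A, c, hA, hc, hb⟩ := Km_bound0 h hY0 hY
  refine ⟨A, c, hA, hc, fun w hw => ?_⟩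
  rcases le_total 0 w.re with hre | hre
  · rw [abs_of_nonneg hre]
    exact hb w hw hre
  · have h1 := hb (-conj w) (by simpa using hw) (by simpa using hre)
    rw [Km_strip h w (by linarith), Complex.norm_conj] at h1
    rw [abs_of_nonpos hre]
    simpa using h1

lemma exp_ge_poly {c : ℝ} (hc : 0 < c) : ∃ C₀ : ℝ, 0 ≤ C₀ ∧ ∀ r : ℝ, 0 ≤ r →
    r ^ 2 + r ^ 3 ≤ c * Real.exp r + C₀ := by
  obtain ⟨ρ, hρ⟩ : ∃ ρ : ℝ, ρ = 48 / c + 1 := ⟨_, rfl⟩
  have hρ1 : 1 ≤ ρ := by
    rw [hρ]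
    have : 0 < 48 / c := by positivity
    linarith
  refine ⟨2 * ρ ^ 3, by positivity, fun r hr => ?_⟩
  rcases le_total r ρ with h | h
  · have h1 : r ^ 3 ≤ ρ ^ 3 := pow_le_pow_left₀ hr h 3
    have h2 : r ^ 2 ≤ ρ ^ 3 := by
      have h3 : r ^ 2 ≤ ρ ^ 2 := pow_le_pow_left₀ hr h 2
      have h4 : ρ ^ 2 ≤ ρ ^ 3 := pow_le_pow_right₀ hρ1 (by norm_num)
      linarith
    have h5 : 0 < c * Real.exp r := by positivity
    linarith
  · have h4 := Real.pow_div_factorial_le_exp r hr 4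
    have e4 : r ^ 4 / ((4 : ℕ).factorial : ℝ) = r ^ 4 / 24 := by norm_num [Nat.factorial]
    rw [e4] at h4
    have h5 : c * (r ^ 4 / 24) ≤ c * Real.exp r := mul_le_mul_of_nonneg_left h4 hc.le
    have h6 : 48 ≤ c * r := by
      have h7 : 48 / c ≤ r := by linarith
      rw [div_le_iff₀ hc] at h7
      linarith
    have h7 : 0 ≤ r ^ 3 := by positivity
    have h8 : 2 * r ^ 3 ≤ c * (r ^ 4 / 24) := by
      have h9 : c * (r ^ 4 / 24) = (c * r) * r ^ 3 / 24 := by ring
      rw [h9]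
      nlinarith
    have h10 : r ^ 2 ≤ r ^ 3 := pow_le_pow_right₀ (by linarith) (by norm_num)
    have h11 : 0 ≤ 2 * ρ ^ 3 := by positivity
    linarith

lemma mul_le_rpow_add {Q r : ℝ} (hQ : 0 ≤ Q) (hr : 0 ≤ r) :
    Q * r ≤ Q ^ (3 / 2 : ℝ) + r ^ 3 := by
  have hs : Q ^ (3 / 2 : ℝ) = Q * Real.sqrt Q := by
    rw [Real.sqrt_eq_rpow, ← Real.rpow_one_add' hQ (by norm_num)]
    norm_num
  rw [hs]
  have h0 := Real.sqrt_nonneg Q
  have h1 := Real.sq_sqrt hQ
  rcases le_total r (Real.sqrt Q) with h | h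
  · have : Q * r ≤ Q * Real.sqrt Q := mul_le_mul_of_nonneg_left h hQ
    have : 0 ≤ r ^ 3 := by positivity
    linarith
  · have h2 : Q ≤ r ^ 2 := by
      rw [← h1]; exact pow_le_pow_left₀ h0 h 2
    have h3 : Q * r ≤ r ^ 2 * r := mul_le_mul_of_nonneg_right h2 hr
    have h4 : 0 ≤ Q * Real.sqrt Q := by positivity
    nlinarith

theorem M1 : S_M1 := by
  intro N k F b κ h
  have hpi := Real.pi_pos
  refine ⟨by positivity, fun w hw => Km_diff h hw, h.herm, ?_, ?_⟩
  · intro Y hY0 hY M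
    obtain ⟨A, c, hA, hc, hb⟩ := Km_bound h hY0 hY
    refine ⟨A * Real.exp ((k / 2 + M) ^ 2 / (2 * c)), by positivity, ?_⟩
    intro w hw
    refine (hb w hw).trans ?_
    rw [mul_assoc A, ← Real.exp_add]
    refine mul_le_mul_of_nonneg_left (Real.exp_le_exp.2 ?_) hA
    have h8 : |w.re| ^ 2 / 2 ≤ Real.exp |w.re| := by
      have := Real.pow_div_factorial_le_exp |w.re| (abs_nonneg _) 2
      norm_num [Nat.factorial] at this
      simpa using this
    have h9 : c * (|w.re| ^ 2 / 2) ≤ c * Real.exp |w.re| := mul_le_mul_of_nonneg_left h8 hc.le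
    have h10 : (k / 2 + M) * |w.re| - c * (|w.re| ^ 2 / 2) ≤ (k / 2 + M) ^ 2 / (2 * c) := by
      rw [le_div_iff₀ (by positivity)]
      nlinarith [sq_nonneg ((k / 2 + M) - c * |w.re|)]
    linarith
  · obtain ⟨A, c, hA, hc, hb⟩ := Km_bound h (le_refl (0 : ℝ)) (by positivity)
    obtain ⟨C₀, hC₀, hp⟩ := exp_ge_poly hc
    obtain ⟨E, hE⟩ : ∃ E : ℝ, E = 2 * (A + 1) * Real.exp C₀ := ⟨_, rfl⟩
    have hE0 : 0 < E := by rw [hE]; positivity
    refine ⟨|Real.log E| + (1 + k) ^ (3 / 2 : ℝ), by positivity, ?_⟩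
    intro R hR
    have hk0 : (0 : ℝ) ≤ k := Nat.cast_nonneg k
    have hQ : 0 ≤ R + k / 2 := by positivity
    have hpt : ∀ u : ℝ, ‖Km N k F κ (u : ℂ)‖ * Real.exp (R * |u|) ≤
        (A + 1) * Real.exp (C₀ + (R + k / 2) ^ (3 / 2 : ℝ)) * Real.exp (-1 * u ^ 2) := by
      intro u
      have h1 := hb (u : ℂ) (by simp)
      simp only [ofReal_re] at h1
      have h2 := hp |u| (abs_nonneg u)
      have h3 := mul_le_rpow_add hQ (abs_nonneg u)
      have h5 : |u| ^ 2 = u ^ 2 := sq_abs u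
      calc ‖Km N k F κ (u : ℂ)‖ * Real.exp (R * |u|)
          ≤ A * Real.exp (k / 2 * |u| - c * Real.exp |u|) * Real.exp (R * |u|) :=
            mul_le_mul_of_nonneg_right h1 (Real.exp_pos _).le
        _ = A * Real.exp (k / 2 * |u| - c * Real.exp |u| + R * |u|) := by
            rw [mul_assoc, ← Real.exp_add]
        _ ≤ (A + 1) * Real.exp (C₀ + (R + k / 2) ^ (3 / 2 : ℝ) + -1 * u ^ 2) := by
            refine mul_le_mul (by linarith) (Real.exp_le_exp.2 ?_) (Real.exp_pos _).le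
              (by positivity)
            linarith
        _ = (A + 1) * Real.exp (C₀ + (R + k / 2) ^ (3 / 2 : ℝ)) * Real.exp (-1 * u ^ 2) := by
            rw [Real.exp_add, mul_assoc]
    have hint : Integrable (fun u : ℝ =>
        (A + 1) * Real.exp (C₀ + (R + k / 2) ^ (3 / 2 : ℝ)) * Real.exp (-1 * u ^ 2)) :=
      (integrable_exp_neg_mul_sq one_pos).const_mul _
    have h1 := integral_mono_of_nonneg (μ := volume)
      (Eventually.of_forall fun u : ℝ => by positivity) hint (Eventually.of_forall hpt)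
    refine h1.trans ?_
    rw [integral_const_mul, integral_gaussian]
    have hsq : Real.sqrt (Real.pi / 1) ≤ 2 := by
      rw [div_one, Real.sqrt_le_left (by norm_num)]
      linarith [Real.pi_lt_d2]
    have hone : (1 : ℝ) ≤ (1 + R) ^ (3 / 2 : ℝ) := Real.one_le_rpow (by linarith) (by norm_num)
    have hr : (R + k / 2) ^ (3 / 2 : ℝ) ≤ (1 + k) ^ (3 / 2 : ℝ) * (1 + R) ^ (3 / 2 : ℝ) := by
      rw [← Real.mul_rpow (by positivity) (by positivity)]
      apply Real.rpow_le_rpow hQ _ (by norm_num)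
      nlinarith [mul_nonneg hk0 hR]
    calc (A + 1) * Real.exp (C₀ + (R + k / 2) ^ (3 / 2 : ℝ)) * Real.sqrt (Real.pi / 1)
        ≤ (A + 1) * Real.exp (C₀ + (R + k / 2) ^ (3 / 2 : ℝ)) * 2 :=
          mul_le_mul_of_nonneg_left hsq (by positivity)
      _ = Real.exp (Real.log E) * Real.exp ((R + k / 2) ^ (3 / 2 : ℝ)) := by
          rw [Real.exp_log hE0, hE, Real.exp_add]; ring
      _ = Real.exp (Real.log E + (R + k / 2) ^ (3 / 2 : ℝ)) := by rw [Real.exp_add]
      _ ≤ Real.exp ((|Real.log E| + (1 + k) ^ (3 / 2 : ℝ)) * (1 + R) ^ (3 / 2 : ℝ)) := by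
          apply Real.exp_le_exp.2
          have h7 := le_abs_self (Real.log E)
          have h8 : |Real.log E| * 1 ≤ |Real.log E| * (1 + R) ^ (3 / 2 : ℝ) :=
            mul_le_mul_of_nonneg_left hone (abs_nonneg _)
          nlinarith

end Pool.Agent.N498.GN
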